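import Pool.Agent.Y201.LI.Stm6
import Pool.Agent.H552R3.Tsen.Zero

/-!
# Project LI, job RK3: common zero of few polynomials (variant of RK1 of helper905 and RK2 of
helper151)
-/

set_option autoImplicit false

namespace Pool.Agent.Y641.LI

open MvPolynomial Module Pool.Agent.Y201.C3 Pool.Agent.Y201.LI

noncomputable section

section
variable {r : ℕ} {R : Type} [CommRing R] [Algebra ℂ R] (T : Fin r → Fin r → Fin r → ℂ)

/-- contraction with the same vector twice -/
def D2 (x : Fin r → R) (k : Fin r) : R := ∑ i, ∑ j, algebraMap ℂ R (T i j k) * x i * x j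

/-- contraction with a vector -/
def D1 (x : Fin r → R) (j k : Fin r) : R := ∑ i, algebraMap ℂ R (T i j k) * x i

theorem Bg_D2 (x z : Fin r → R) : Bg T x x z = ∑ k, D2 T x k * z k := by
  unfold Bg D2
  simp only [Finset.sum_mul]
  have h1 : ∀ i, ∑ j, ∑ k, algebraMap ℂ R (T i j k) * x i * x j * z k =
      ∑ k, ∑ j, algebraMap ℂ R (T i j k) * x i * x j * z k := fun i => Finset.sum_comm
  rw [Finset.sum_congr rfl fun i _ => h1 i]
  exact Finset.sum_comm

theorem Bg_D1 (x y z : Fin r → R) : Bg T x y z = ∑ j, ∑ k, D1 T x j k * (y j * z k) := by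
  unfold Bg D1
  rw [Finset.sum_comm]
  refine Finset.sum_congr rfl fun j _ => ?_
  rw [Finset.sum_comm]
  refine Finset.sum_congr rfl fun k _ => ?_
  rw [Finset.sum_mul]
  exact Finset.sum_congr rfl fun i _ => by ring

theorem map_D2 {R' : Type} [CommRing R'] [Algebra ℂ R'] (φ : R →ₐ[ℂ] R') (x : Fin r → R)
    (k : Fin r) : φ (D2 T x k) = D2 T (fun i => φ (x i)) k := by
  unfold D2
  simp only [map_sum, map_mul, AlgHom.commutes]

theorem map_D1 {R' : Type} [CommRing R'] [Algebra ℂ R'] (φ : R →ₐ[ℂ] R') (x : Fin r → R)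
    (j k : Fin r) : φ (D1 T x j k) = D1 T (fun i => φ (x i)) j k := by
  unfold D1
  simp only [map_sum, map_mul, AlgHom.commutes]

theorem D2_zero (k : Fin r) : D2 T (fun _ => (0 : R)) k = 0 := by
  unfold D2
  simp

theorem D1_zero (j k : Fin r) : D1 T (fun _ => (0 : R)) j k = 0 := by
  unfold D1
  simp

end

/-- The common zero. -/
theorem core {r m q k : ℕ} (T : Fin r → Fin r → Fin r → ℂ) {V1 V2 : Type} [AddCommGroup V1]
    [Module ℂ V1] [AddCommGroup V2] [Module ℂ V2] (b1 : Basis (Fin m) ℂ V1)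
    (b2 : Basis (Fin q) ℂ V2) (l1 : Fin r → V1) (l2 : Fin r → Fin r → V2)
    (m2 : Fin m → Fin m → V2) (h : Fin k → Fin r → ℂ) (hr : q + k + 1 ≤ r) :
    ∃ (η : Fin r → ℂ) (l₀ : ℂ) (y : Fin m → ℂ), ¬ (η = 0 ∧ l₀ = 0 ∧ y = 0) ∧
      (∀ i, ∑ j, h i j * η j = 0) ∧ Bg T η η η = l₀ ^ 2 ∧
      ∑ k, (3 * D2 T η k) • l1 k = ∑ a, (2 * l₀ * y a) • b1 a ∧
      ∑ j, ∑ k, (3 * D1 T η j k) • l2 j k = ∑ a, ∑ b, (y a * y b) • m2 a b := by
  classical
  let σ := Fin r ⊕ (Unit ⊕ Fin m)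
  let ηp : Fin r → MvPolynomial σ ℂ := fun i => X (Sum.inl i)
  let P1 : Fin k → MvPolynomial σ ℂ := fun i => ∑ j, C (h i j) * X (Sum.inl j)
  let P2 : MvPolynomial σ ℂ := Bg T ηp ηp ηp - X (Sum.inr (Sum.inl ())) ^ 2
  let P3 : Fin m → MvPolynomial σ ℂ := fun c => ∑ k, C 3 * D2 T ηp k * C (b1.repr (l1 k) c) -
    C 2 * X (Sum.inr (Sum.inl ())) * X (Sum.inr (Sum.inr c))
  let P4 : Fin q → MvPolynomial σ ℂ := fun d =>
    ∑ j, ∑ k, C 3 * D1 T ηp j k * C (b2.repr (l2 j k) d) -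
    ∑ a, ∑ b, X (Sum.inr (Sum.inr a)) * X (Sum.inr (Sum.inr b)) * C (b2.repr (m2 a b) d)
  have hev : ∀ (v : σ → ℂ) (p : MvPolynomial σ ℂ),
      eval v p = (aeval v : MvPolynomial σ ℂ →ₐ[ℂ] ℂ) p := fun v p =>
    (MvPolynomial.coe_aeval_eq_eval v ▸ rfl)
  have hηp : ∀ v : σ → ℂ, (fun i => (aeval v : MvPolynomial σ ℂ →ₐ[ℂ] ℂ) (ηp i)) =
      fun i => v (Sum.inl i) := fun v => by
    funext i
    exact aeval_X _ _
  have e1 : ∀ (v : σ → ℂ) (i : Fin k), eval v (P1 i) = ∑ j, h i j * v (Sum.inl j) := by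
    intro v i
    simp only [P1, map_sum, map_mul, eval_C, eval_X]
  have e2 : ∀ (v : σ → ℂ), eval v P2 = Bg T (fun i => v (Sum.inl i)) (fun i => v (Sum.inl i))
      (fun i => v (Sum.inl i)) - v (Sum.inr (Sum.inl ())) ^ 2 := by
    intro v
    rw [hev]
    simp only [P2, map_sub, map_pow, map_Bg, aeval_X, hηp]
  have e3 : ∀ (v : σ → ℂ) (c : Fin m), eval v (P3 c) =
      ∑ k, 3 * D2 T (fun i => v (Sum.inl i)) k * b1.repr (l1 k) c -
        2 * v (Sum.inr (Sum.inl ())) * v (Sum.inr (Sum.inr c)) := by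
    intro v c
    rw [hev]
    simp only [P3, map_sub, map_sum, map_mul, map_D2, aeval_X, aeval_C, hηp,
      Algebra.algebraMap_self, RingHom.id_apply]
  have e4 : ∀ (v : σ → ℂ) (d : Fin q), eval v (P4 d) =
      ∑ j, ∑ k, 3 * D1 T (fun i => v (Sum.inl i)) j k * b2.repr (l2 j k) d -
        ∑ a, ∑ b, v (Sum.inr (Sum.inr a)) * v (Sum.inr (Sum.inr b)) * b2.repr (m2 a b) d := by
    intro v d
    rw [hev]
    simp only [P4, map_sub, map_sum, map_mul, map_D1, aeval_X, aeval_C, hηp,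
      Algebra.algebraMap_self, RingHom.id_apply]
  let P : Fin k ⊕ (Unit ⊕ (Fin m ⊕ Fin q)) → MvPolynomial σ ℂ :=
    Sum.elim P1 (Sum.elim (fun _ => P2) (Sum.elim P3 P4))
  have hP0 : ∀ t, eval 0 (P t) = 0 := by
    intro t
    have h0 : (fun i : Fin r => (0 : σ → ℂ) (Sum.inl i)) = fun _ => 0 := rfl
    rcases t with i | u | c | d
    · show eval 0 (P1 i) = 0
      rw [e1]
      simp
    · show eval 0 P2 = 0
      rw [e2, h0, Bg_zero1]
      simp
    · show eval 0 (P3 c) = 0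
      rw [e3, h0]
      simp [D2_zero]
    · show eval 0 (P4 d) = 0
      rw [e4, h0]
      simp [D1_zero]
  have hcard : Fintype.card (Fin k ⊕ (Unit ⊕ (Fin m ⊕ Fin q))) < Fintype.card σ := by
    show Fintype.card (Fin k ⊕ (Unit ⊕ (Fin m ⊕ Fin q))) < Fintype.card (Fin r ⊕ (Unit ⊕ Fin m))
    simp only [Fintype.card_sum, Fintype.card_fin, Fintype.card_unit]
    omega
  obtain ⟨v, hv0, hv⟩ := Pool.Agent.H552R3.Tsen.exists_common_zero P hP0 hcard
  refine ⟨fun i => v (Sum.inl i), v (Sum.inr (Sum.inl ())), fun a => v (Sum.inr (Sum.inr a)),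
    ?_, fun i => ?_, ?_, ?_, ?_⟩
  · rintro ⟨h1, h2, h3⟩
    apply hv0
    funext s
    rcases s with i | u | a
    · exact congrFun h1 i
    · exact h2
    · exact congrFun h3 a
  · have := hv (Sum.inl i)
    rw [← e1]
    exact this
  · have h1 : eval v P2 = 0 := hv (Sum.inr (Sum.inl ()))
    rw [e2] at h1
    exact sub_eq_zero.1 h1
  · refine b1.ext_elem fun c => ?_
    have h1 : eval v (P3 c) = 0 := hv (Sum.inr (Sum.inr (Sum.inl c)))
    rw [e3] at h1
    rw [b1.repr_sum_self, map_sum, Finsupp.finsetSum_apply]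
    simp only [map_smul, Finsupp.smul_apply, smul_eq_mul]
    exact sub_eq_zero.1 h1
  · refine b2.ext_elem fun d => ?_
    have h1 : eval v (P4 d) = 0 := hv (Sum.inr (Sum.inr (Sum.inr d)))
    rw [e4] at h1
    simp only [map_sum, Finsupp.finsetSum_apply, map_smul, Finsupp.smul_apply, smul_eq_mul]
    exact sub_eq_zero.1 h1

theorem rk3 : Pool.Agent.Y201.LI.S_RK3 := by
  classical
  intro r T hT M _ _ lam k h hmiss hr
  set A : Set M := {z : M | ∃ i j, z = lam i * lam j} with hA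
  have hAfin : A.Finite := by
    have : A = Set.range fun p : Fin r × Fin r => lam p.1 * lam p.2 := by
      ext z
      constructor
      · rintro ⟨i, j, rfl⟩
        exact ⟨(i, j), rfl⟩
      · rintro ⟨p, rfl⟩
        exact ⟨p.1, p.2, rfl⟩
    rw [this]
    exact Set.finite_range _
  have hS1 : FiniteDimensional ℂ (Submodule.span ℂ (Set.range lam)) :=
    FiniteDimensional.span_of_finite ℂ (Set.finite_range lam)
  have hS2 : FiniteDimensional ℂ (Submodule.span ℂ A) := FiniteDimensional.span_of_finite ℂ hAfin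
  let b1 := Module.finBasis ℂ (Submodule.span ℂ (Set.range lam))
  let b2 := Module.finBasis ℂ (Submodule.span ℂ A)
  have hl2 : ∀ i j, lam i * lam j ∈ Submodule.span ℂ A := fun i j =>
    Submodule.subset_span ⟨i, j, rfl⟩
  have hg : ∀ a, ∃ g : Fin r → ℂ, ∑ i, g i • lam i = (b1 a : M) := fun a =>
    (Submodule.mem_span_range_iff_exists_fun ℂ).1 (b1 a).2
  choose g hg using hg
  have hm2 : ∀ a b, (b1 a : M) * (b1 b : M) ∈ Submodule.span ℂ A := by
    intro a b
    rw [← hg a, ← hg b, Finset.sum_mul_sum]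
    refine Submodule.sum_mem _ fun i _ => Submodule.sum_mem _ fun j _ => ?_
    rw [smul_mul_smul_comm]
    exact Submodule.smul_mem _ _ (hl2 i j)
  obtain ⟨η, l₀, y, hne, h1, h2, h3, h4⟩ := core T b1 b2
    (fun i => ⟨lam i, Submodule.subset_span ⟨i, rfl⟩⟩) (fun i j => ⟨lam i * lam j, hl2 i j⟩)
    (fun a b => ⟨(b1 a : M) * (b1 b : M), hm2 a b⟩) h hr
  have h3' := congrArg Subtype.val h3
  have h4' := congrArg Subtype.val h4
  simp only [Submodule.coe_sum, Submodule.coe_smul] at h3' h4'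
  -- the linear form
  have hl : ∑ i, algebraMap ℂ M (∑ a, y a * g a i) * lam i = ∑ a, y a • (b1 a : M) := by
    have h5 : ∀ a, y a • (b1 a : M) = ∑ i, algebraMap ℂ M (y a * g a i) * lam i := by
      intro a
      rw [← hg a, Finset.smul_sum]
      refine Finset.sum_congr rfl fun i _ => ?_
      rw [smul_smul, Algebra.smul_def]
    rw [Finset.sum_congr rfl fun a _ => h5 a, Finset.sum_comm]
    refine Finset.sum_congr rfl fun i _ => ?_
    rw [map_sum, Finset.sum_mul]
  have hsq : ∑ a, ∑ b, (y a * y b) • ((b1 a : M) * (b1 b : M)) =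
      (∑ a, y a • (b1 a : M)) ^ 2 := by
    rw [sq, Finset.sum_mul_sum]
    refine Finset.sum_congr rfl fun a _ => Finset.sum_congr rfl fun b _ => ?_
    rw [smul_mul_smul_comm]
  have hη : η ≠ 0 := by
    intro h0
    apply hne
    have hη0 : η = fun _ => 0 := h0
    have h5 : l₀ = 0 := by
      rw [hη0, Bg_zero1] at h2
      exact pow_eq_zero_iff (two_ne_zero) |>.1 h2.symm
    refine ⟨h0, h5, ?_⟩
    have h6 : ∑ a, y a • (b1 a : M) = 0 := by
      rw [hsq, hη0] at h4'
      simp only [D1_zero, mul_zero, zero_smul, Finset.sum_const_zero] at h4'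
      exact pow_eq_zero_iff (two_ne_zero) |>.1 h4'.symm
    have h7 : ∑ a, y a • b1 a = 0 := by
      apply Subtype.ext
      rw [Submodule.coe_sum]
      exact h6
    funext a
    exact Fintype.linearIndependent_iff.1 b1.linearIndependent y h7 a
  refine ⟨η, l₀, fun i => ∑ a, y a * g a i, h2, ?_, ?_, ?_⟩
  · rw [hl, Bg_D2, Finset.mul_sum, Finset.mul_sum]
    have h5 : ∀ k, (3 : M) * (D2 T (fun i => algebraMap ℂ M (η i)) k * lam k) =
        (3 * D2 T η k) • lam k := by
      intro k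
      have h6 := map_D2 T (Algebra.ofId ℂ M) η k
      have h7 : D2 T (fun i => algebraMap ℂ M (η i)) k = algebraMap ℂ M (D2 T η k) := h6.symm
      rw [h7, Algebra.smul_def, map_mul, map_ofNat, mul_assoc]
    rw [Finset.sum_congr rfl fun k _ => h5 k, h3']
    refine Finset.sum_congr rfl fun a _ => ?_
    rw [Algebra.smul_def, Algebra.smul_def, map_mul, map_mul, map_ofNat]
    ring
  · rw [hl, ← hsq, Bg_D1, Finset.mul_sum, ← h4']
    refine Finset.sum_congr rfl fun j _ => ?_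
    rw [Finset.mul_sum]
    refine Finset.sum_congr rfl fun k _ => ?_
    have h6 := map_D1 T (Algebra.ofId ℂ M) η j k
    have h7 : D1 T (fun i => algebraMap ℂ M (η i)) j k = algebraMap ℂ M (D1 T η j k) := h6.symm
    rw [h7, Algebra.smul_def, map_mul, map_ofNat]
    ring
  · by_contra hcon
    push Not at hcon
    exact hη (hmiss η (fun e H hH h0 => hcon e H hH h0) h1)

end

end Pool.Agent.Y641.LI
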